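import Pool.Agent.H30.FCB.StE
import Pool.Agent.H30.FCB.Basic

open AlgebraicGeometry CategoryTheory TopologicalSpace

namespace FCB
namespace CONB

lemma gen_mem {X : Scheme.{0}} [IsIntegral X] (V : X.Opens) (h : ∃ x, x ∈ V) :
    genericPoint X ∈ V := by
  obtain ⟨x, hx⟩ := h
  exact ((genericPoint_spec X).mem_open_set_iff V.isOpen).mpr (by simpa using ⟨x, hx⟩)

lemma germ_res {X : Scheme.{0}} {U V : X.Opens} (h : V ≤ U) (x : X) (hx : x ∈ V) (s : Γ(X, U)) :
    X.presheaf.germ V x hx (X.presheaf.map (homOfLE h).op s) =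
      X.presheaf.germ U x (h hx) s :=
  X.presheaf.germ_res_apply (homOfLE h) x hx s

lemma glue_sec {Y : Scheme.{0}} [IsIntegral Y] (V : Y.Opens) (hV : genericPoint Y ∈ V)
    (b : Y.functionField)
    (h : ∀ y : V, ∃ (W : Y.Opens) (hg : genericPoint Y ∈ W) (_ : W ≤ V) (t : Γ(Y, W)),
      y.1 ∈ W ∧ Y.presheaf.germ W (genericPoint Y) hg t = b) :
    ∃ t : Γ(Y, V), Y.presheaf.germ V (genericPoint Y) hV t = b := by
  choose W hg hW t hy ht using h
  have hcov : V ≤ ⨆ y : V, W y := fun y hyV => Opens.mem_iSup.2 ⟨⟨y, hyV⟩, hy ⟨y, hyV⟩⟩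
  obtain ⟨s, hs, -⟩ := Y.sheaf.existsUnique_gluing' W V (fun y => homOfLE (hW y)) hcov t (by
    intro y z
    have hg' : genericPoint Y ∈ W y ⊓ W z := ⟨hg y, hg z⟩
    apply germ_injective_of_isIntegral Y (genericPoint Y) hg'
    have h1 := germ_res (X := Y) (inf_le_left : W y ⊓ W z ≤ W y) (genericPoint Y) hg' (t y)
    have h2 := germ_res (X := Y) (inf_le_right : W y ⊓ W z ≤ W z) (genericPoint Y) hg' (t z)
    exact (h1.trans (ht y)).trans (h2.trans (ht z)).symm)
  refine ⟨s, ?_⟩
  have h1 := germ_res (X := Y) (hW ⟨_, hV⟩) (genericPoint Y) (hg ⟨_, hV⟩) s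
  rw [← ht ⟨_, hV⟩, ← hs ⟨_, hV⟩]
  exact h1.symm

lemma basic_ext {X : Scheme.{0}} [IsIntegral X] (U : X.Opens) (hU : IsAffineOpen U)
    (g : Γ(X, U)) (W : X.Opens) (hW : X.basicOpen g ≤ W)
    (hg : genericPoint X ∈ X.basicOpen g) (s : Γ(X, W)) :
    ∃ (N : ℕ) (u : Γ(X, U)), X.presheaf.germ U (genericPoint X) (X.basicOpen_le g hg) u =
      X.presheaf.germ U (genericPoint X) (X.basicOpen_le g hg) g ^ N *
        X.presheaf.germ W (genericPoint X) (hW hg) s := by
  have := hU.isLocalization_basicOpen g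
  obtain ⟨N, u, hu⟩ := IsLocalization.Away.surj (S := Γ(X, X.basicOpen g)) g
    (X.presheaf.map (homOfLE hW).op s)
  refine ⟨N, u, ?_⟩
  have h1 := congrArg (X.presheaf.germ (X.basicOpen g) (genericPoint X) hg) hu
  rw [map_mul, map_pow, germ_res hW] at h1
  have h2 : ∀ v : Γ(X, U), X.presheaf.germ (X.basicOpen g) (genericPoint X) hg
      (algebraMap Γ(X, U) Γ(X, X.basicOpen g) v) =
      X.presheaf.germ U (genericPoint X) (X.basicOpen_le g hg) v := fun v =>
    germ_res (X.basicOpen_le g) (genericPoint X) hg v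
  rw [h2, h2] at h1
  rw [← h1, mul_comm]

lemma basic_div {X : Scheme.{0}} [IsIntegral X] (U : X.Opens) (hU : IsAffineOpen U)
    (g : Γ(X, U)) (hg : genericPoint X ∈ X.basicOpen g) (u : Γ(X, U)) (N : ℕ) :
    ∃ t : Γ(X, X.basicOpen g), X.presheaf.germ (X.basicOpen g) (genericPoint X) hg t *
      X.presheaf.germ U (genericPoint X) (X.basicOpen_le g hg) g ^ N =
        X.presheaf.germ U (genericPoint X) (X.basicOpen_le g hg) u := by
  have := hU.isLocalization_basicOpen g
  have h2 : ∀ v : Γ(X, U), X.presheaf.germ (X.basicOpen g) (genericPoint X) hg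
      (algebraMap Γ(X, U) Γ(X, X.basicOpen g) v) =
      X.presheaf.germ U (genericPoint X) (X.basicOpen_le g hg) v := fun v =>
    germ_res (X.basicOpen_le g) (genericPoint X) hg v
  refine ⟨IsLocalization.mk' (M := Submonoid.powers g) _ u ⟨g ^ N, N, rfl⟩, ?_⟩
  rw [← h2, ← h2, ← map_pow, ← map_pow, ← map_mul]
  congr 1
  exact IsLocalization.mk'_spec _ u (⟨g ^ N, N, rfl⟩ : Submonoid.powers g)

section

variable {R ι C : Type} {r : ℕ} [CommRing R] [IsDomain R] [Algebra ℂ R] [Fintype ι]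
  {R' ι' C' : Type} {r' : ℕ} [CommRing R'] [IsDomain R'] [Algebra ℂ R'] [Fintype ι']
  {D : Cox R ι C r} {D' : Cox R' ι' C' r'} {M : PreModel D} {M' : PreModel D'}
  {Φ : FractionRing R' →+* FractionRing R} {τ : C → C'} {f : M.X ⟶ M'.X}

omit [IsDomain R] [IsDomain R'] in
lemma hsec (hf : IsMor M M' Φ τ f) (V : M'.X.Opens) (hg : genericPoint M'.X ∈ V)
    (hg' : genericPoint M.X ∈ f ⁻¹ᵁ V) (t : Γ(M'.X, V)) :
    M.emb (M.X.presheaf.germ (f ⁻¹ᵁ V) (genericPoint M.X) hg' (f.app V t)) =
      Φ (M'.emb (M'.X.presheaf.germ V (genericPoint M'.X) hg t)) := by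
  have i1 : Nonempty V := ⟨⟨_, hg⟩⟩
  have i2 : Nonempty (f ⁻¹ᵁ V) := ⟨⟨_, hg'⟩⟩
  have h := hf.stalk (genericPoint M.X) (M'.X.presheaf.germ V (f (genericPoint M.X)) hg' t)
  have h1 : (f.stalkMap (genericPoint M.X)).hom
      (M'.X.presheaf.germ V (f (genericPoint M.X)) hg' t) =
      M.X.presheaf.germ (f ⁻¹ᵁ V) (genericPoint M.X) hg' (f.app V t) :=
    Scheme.Hom.germ_stalkMap_apply f V (genericPoint M.X) hg' t
  rw [h1] at h
  have h2 := Scheme.algebraMap_germ_eq_germToFunctionField (X := M.X) (U := f ⁻¹ᵁ V)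
    (x := genericPoint M.X) hg' (f.app V t)
  have h3 := Scheme.algebraMap_germ_eq_germToFunctionField (X := M'.X) (U := V)
    (x := f (genericPoint M.X)) hg' t
  exact ((congrArg M.emb h2).symm.trans h).trans (congrArg (fun k => Φ (M'.emb k)) h3)

lemma dom (hf : IsMor M M' Φ τ f) : f (genericPoint M.X) = genericPoint M'.X := by
  set x := genericPoint M.X with hx
  have hinj : Function.Injective (f.stalkMap x).hom := by
    intro a b hab
    have h1 : Φ (M'.emb (algebraMap _ M'.X.functionField a)) =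
        Φ (M'.emb (algebraMap _ M'.X.functionField b)) := by
      rw [← hf.stalk, ← hf.stalk, hab]
    have h2 := M'.emb.injective (Φ.injective h1)
    exact (IsFractionRing.injective (M'.X.presheaf.stalk (f x)) M'.X.functionField) h2
  have hF : IsField (M.X.presheaf.stalk x) := Field.toIsField M.X.functionField
  have hfield : IsField (M'.X.presheaf.stalk (f x)) := by
    rw [IsLocalRing.isField_iff_maximalIdeal_eq]
    rw [eq_bot_iff]
    intro a ha
    rw [Ideal.mem_bot]
    have h1 : ¬ IsUnit a := (IsLocalRing.mem_maximalIdeal a).1 ha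
    have h2 : ¬ IsUnit ((f.stalkMap x).hom a) := fun h => h1 (isUnit_of_map_unit _ a h)
    have h3 : (f.stalkMap x).hom a = 0 := by
      by_contra h0
      obtain ⟨b, hb⟩ := hF.mul_inv_cancel h0
      exact h2 (IsUnit.of_mul_eq_one b hb)
    exact hinj (h3.trans (map_zero _).symm)
  have h4 : genericPoint M'.X ∈ Set.range (M'.X.fromSpecStalk (f x)) := by
    rw [Scheme.range_fromSpecStalk]
    exact (genericPoint_spec M'.X).specializes trivial
  obtain ⟨p, hp⟩ := h4
  have h5 : p = IsLocalRing.closedPoint (M'.X.presheaf.stalk (f x)) := by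
    apply PrimeSpectrum.ext
    have h6 : ∀ I : Ideal (M'.X.presheaf.stalk (f x)), I.IsPrime → I = ⊥ := by
      intro I hI
      rw [eq_bot_iff]
      intro a ha
      rw [Ideal.mem_bot]
      by_contra h0
      obtain ⟨b, hb⟩ := hfield.mul_inv_cancel h0
      exact hI.ne_top ((Ideal.eq_top_iff_one _).2 (hb ▸ Ideal.mul_mem_right b I ha))
    rw [h6 _ p.2, h6 _ (IsLocalRing.closedPoint _).2]
  rw [← hp, h5, Scheme.fromSpecStalk_closedPoint]

end

end CONB

theorem conb : S_CONB := by
  intro R ι C r _ _ _ _ _ R' ι' C' r' _ _ _ _ D D' M M' Φ τ f hf hpre hA V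
  have hdom := CONB.dom hf
  by_cases hV : ∃ y, y ∈ V
  swap
  · have hV0 : V = ⊥ := by
      rw [eq_bot_iff]
      intro y hy
      exact (hV ⟨y, hy⟩).elim
    subst hV0
    have h1 : Subsingleton Γ(M'.X, ⊥) := inferInstance
    have h2 : Subsingleton Γ(M.X, f ⁻¹ᵁ ⊥) := inferInstanceAs (Subsingleton Γ(M.X, ⊥))
    exact ⟨fun _ _ _ => Subsingleton.elim _ _, fun _ => ⟨0, Subsingleton.elim _ _⟩⟩
  have hg : genericPoint M'.X ∈ V := CONB.gen_mem V hV
  have hgX : ∀ W : M'.X.Opens, genericPoint M'.X ∈ W → genericPoint M.X ∈ f ⁻¹ᵁ W := by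
    intro W hW
    change f (genericPoint M.X) ∈ W
    rw [hdom]
    exact hW
  have hg' := hgX V hg
  constructor
  · intro s t hst
    apply germ_injective_of_isIntegral M'.X (genericPoint M'.X) hg
    apply M'.emb.injective
    apply Φ.injective
    rw [← CONB.hsec hf V hg hg', ← CONB.hsec hf V hg hg', hst]
  · intro s
    set a := M.emb (M.X.presheaf.germ (f ⁻¹ᵁ V) (genericPoint M.X) hg' s) with ha
    -- local sections
    have hloc : ∀ y : V, ∃ (W : M'.X.Opens) (hW : genericPoint M'.X ∈ W) (_ : W ≤ V)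
        (t : Γ(M'.X, W)), y.1 ∈ W ∧
          Φ (M'.emb (M'.X.presheaf.germ W (genericPoint M'.X) hW t)) = a := by
      rintro ⟨y, hy⟩
      obtain ⟨c', hc'⟩ := M'.cov y
      obtain ⟨h, hh1, hh2⟩ := (M'.aff c').exists_basicOpen_le ⟨y, hy⟩ hc'
      have hgh : genericPoint M'.X ∈ M'.X.basicOpen h := CONB.gen_mem _ ⟨y, hh2⟩
      have hgU : genericPoint M'.X ∈ M'.U c' := M'.X.basicOpen_le h hgh
      set H := Φ (M'.emb (M'.X.presheaf.germ (M'.U c') (genericPoint M'.X) hgU h)) with hH
      have hH0 : H ≠ 0 := by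
        intro h0
        have h1 : M'.X.presheaf.germ (M'.U c') (genericPoint M'.X) hgU h = 0 := by
          apply M'.emb.injective
          apply Φ.injective
          rw [map_zero, map_zero]
          exact h0
        have h2 : h = 0 := germ_injective_of_isIntegral M'.X _ hgU (h1.trans (map_zero _).symm)
        rw [h2] at hgh
        simp at hgh
      have hc : ∀ c : C, τ c = c' → H ∈ D.chart c ∧ ∃ N : ℕ, H ^ N * a ∈ D.chart c := by
        intro c hcc
        subst hcc
        have hle : M.U c ≤ f ⁻¹ᵁ (M'.U (τ c)) := fun x hx => hf.mem c x hx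
        have hgc : genericPoint M.X ∈ M.U c := CONB.gen_mem _
          ⟨(M.ne c).some.1, (M.ne c).some.2⟩
        set g : Γ(M.X, M.U c) := M.X.presheaf.map (homOfLE hle).op (f.app (M'.U (τ c)) h)
          with hgdef
        have hgerm : M.emb (M.X.presheaf.germ (M.U c) (genericPoint M.X) hgc g) = H := by
          rw [hH, ← CONB.hsec hf (M'.U (τ c)) hgU (hgX _ hgU), hgdef]
          congr 1
          exact CONB.germ_res hle _ hgc _
        have hiso : ∀ u : Γ(M.X, M.U c), ((M.iso c u : D.chart c) : FractionRing R) =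
            M.emb (M.X.presheaf.germ (M.U c) (genericPoint M.X) hgc u) := fun u =>
          M.iso_emb c u
        refine ⟨?_, ?_⟩
        · rw [← hgerm, ← hiso]
          exact (M.iso c g).2
        · have hD : M.X.basicOpen g ≤ f ⁻¹ᵁ V := by
            have h1 : M.X.basicOpen g ≤ f ⁻¹ᵁ (M'.X.basicOpen h) := by
              rw [hgdef, Scheme.basicOpen_res, Scheme.preimage_basicOpen]
              exact inf_le_right
            exact h1.trans (fun x hx => hh1 hx)
          have hgD : genericPoint M.X ∈ M.X.basicOpen g := by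
            rw [hgdef, Scheme.basicOpen_res]
            refine ⟨hgc, ?_⟩
            have h1 := hgX _ hgh
            rw [Scheme.preimage_basicOpen] at h1
            exact h1
          obtain ⟨N, u, hu⟩ := CONB.basic_ext (M.U c) (M.aff c) g (f ⁻¹ᵁ V) hD hgD s
          refine ⟨N, ?_⟩
          have h2 : M.emb (M.X.presheaf.germ (M.U c) (genericPoint M.X) hgc u) = H ^ N * a := by
            rw [hu, map_mul, map_pow, hgerm]
          rw [← h2, ← hiso]
          exact (M.iso c u).2
      classical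
      choose! hc1 hc2 using hc
      have := Fintype.ofFinite C
      choose N hN using hc2
      let N0 : ℕ := ∑ c : C, if h : τ c = c' then N c h else 0
      have hN0 : ∀ c (h : τ c = c'), N c h ≤ N0 := by
        intro c hcc
        have h1 := Finset.single_le_sum (f := fun c : C => if h : τ c = c' then N c h else 0)
          (fun _ _ => Nat.zero_le _) (Finset.mem_univ c)
        simpa [hcc, N0] using h1
      obtain ⟨a', ha', hΦa⟩ := hA c' (H ^ N0 * a) (by
        intro c hcc
        obtain ⟨k, hk⟩ := Nat.exists_eq_add_of_le (hN0 c hcc)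
        have h1 : H ^ N0 * a = H ^ k * (H ^ (N c hcc) * a) := by
          rw [hk, pow_add]
          ring
        rw [h1]
        exact mul_mem (pow_mem (hc1 c hcc) k) (hN c hcc))
      obtain ⟨u', hu'⟩ : ∃ u' : Γ(M'.X, M'.U c'),
          M'.emb (M'.X.presheaf.germ (M'.U c') (genericPoint M'.X) hgU u') = a' := by
        refine ⟨(M'.iso c').symm ⟨a', ha'⟩, ?_⟩
        have h1 := M'.iso_emb c' ((M'.iso c').symm ⟨a', ha'⟩)
        rw [RingEquiv.apply_symm_apply] at h1
        exact h1.symm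
      obtain ⟨t, ht⟩ := CONB.basic_div (M'.U c') (M'.aff c') h hgh u' N0
      refine ⟨M'.X.basicOpen h, hgh, hh1, t, hh2, ?_⟩
      have h3 := congrArg (fun k => Φ (M'.emb k)) ht
      simp only [map_mul, map_pow] at h3
      rw [hu', hΦa, ← hH, mul_comm (H ^ N0) a] at h3
      exact mul_right_cancel₀ (pow_ne_zero _ hH0) h3
    obtain ⟨W0, hW0, -, t0, -, ht0⟩ := hloc ⟨_, hg⟩
    obtain ⟨t, ht⟩ := CONB.glue_sec V hg (M'.X.presheaf.germ W0 (genericPoint M'.X) hW0 t0) (by
      intro y
      obtain ⟨W, hW, hWV, t, hyW, ht⟩ := hloc y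
      refine ⟨W, hW, hWV, t, hyW, ?_⟩
      exact M'.emb.injective (Φ.injective (ht.trans ht0.symm)))
    refine ⟨t, ?_⟩
    apply germ_injective_of_isIntegral M.X (genericPoint M.X) hg'
    apply M.emb.injective
    rw [← ha, CONB.hsec hf V hg hg', ht, ht0]

end FCB
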