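import Pool.Agent.H30.FCB.StE
import Pool.Agent.H30.FCB.Basic

open AlgebraicGeometry CategoryTheory TopologicalSpace

namespace FCB
namespace MORG

lemma gen_mem {X : Scheme.{0}} [IsIntegral X] (V : X.Opens) [h : Nonempty V] :
    genericPoint X ∈ V :=
  ((genericPoint_spec X).mem_open_set_iff V.isOpen).mpr (by simpa using h)

lemma fromSpecStalk_mem {X : Scheme.{0}} (x : X) (V : X.Opens) (hx : x ∈ V)
    (p : Spec (X.presheaf.stalk x)) : X.fromSpecStalk x p ∈ V := by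
  have h1 : X.fromSpecStalk x p ∈ Set.range (X.fromSpecStalk x) := ⟨p, rfl⟩
  rw [Scheme.range_fromSpecStalk] at h1
  exact h1.mem_open V.2 hx

lemma fromSpecStalk_appLE {X : Scheme.{0}} (x : X) (V : X.Opens) (hx : x ∈ V)
    (e : ⊤ ≤ (X.fromSpecStalk x) ⁻¹ᵁ V) :
    (X.fromSpecStalk x).appLE V ⊤ e = X.presheaf.germ V x hx ≫
      (Scheme.ΓSpecIso (X.presheaf.stalk x)).inv := by
  rw [Scheme.Hom.appLE, Scheme.fromSpecStalk_app hx]
  simp only [Category.assoc, ← Functor.map_comp]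
  have : (homOfLE le_top).op ≫ (homOfLE e).op = 𝟙 (Opposite.op (⊤ : (Spec (X.presheaf.stalk x)).Opens)) := rfl
  erw [this, CategoryTheory.Functor.map_id, Category.comp_id]

lemma sections_of_generic {X Y : Scheme.{0}} [IsIntegral X] [IsIntegral Y] (f : X ⟶ Y)
    (Ψ : Y.functionField ⟶ X.functionField)
    (h : X.fromSpecStalk (genericPoint X) ≫ f =
      Spec.map Ψ ≫ Y.fromSpecStalk (genericPoint Y))
    (V : Y.Opens) [Nonempty V] [Nonempty (f ⁻¹ᵁ V)] (t : Γ(Y, V)) :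
    X.germToFunctionField (f ⁻¹ᵁ V) (f.app V t) = Ψ (Y.germToFunctionField V t) := by
  have hx : genericPoint X ∈ f ⁻¹ᵁ V := gen_mem _
  have hy : genericPoint Y ∈ V := gen_mem _
  have key : ∀ (k₁ k₂ : Spec X.functionField ⟶ Y) (hk : k₁ = k₂) (e₁ : ⊤ ≤ k₁ ⁻¹ᵁ V)
      (e₂ : ⊤ ≤ k₂ ⁻¹ᵁ V), k₁.appLE V ⊤ e₁ = k₂.appLE V ⊤ e₂ := by
    rintro _ _ rfl _ _
    rfl
  have a1 : ⊤ ≤ (X.fromSpecStalk (genericPoint X)) ⁻¹ᵁ (f ⁻¹ᵁ V) := by
    intro p _
    exact fromSpecStalk_mem _ (f ⁻¹ᵁ V) hx p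
  have a2 : ⊤ ≤ (Y.fromSpecStalk (genericPoint Y)) ⁻¹ᵁ V := by
    intro p _
    exact fromSpecStalk_mem _ V hy p
  have e1 : ⊤ ≤ (X.fromSpecStalk (genericPoint X) ≫ f) ⁻¹ᵁ V := a1
  have e2 : ⊤ ≤ (Spec.map Ψ ≫ Y.fromSpecStalk (genericPoint Y)) ⁻¹ᵁ V := by
    intro p _
    exact a2 trivial
  have h3 := key _ _ h e1 e2
  have h3a : (X.fromSpecStalk (genericPoint X) ≫ f).appLE V ⊤ e1 = f.app V ≫
      X.presheaf.germ (f ⁻¹ᵁ V) (genericPoint X) hx ≫
        (Scheme.ΓSpecIso (X.presheaf.stalk (genericPoint X))).inv := by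
    rw [Scheme.Hom.comp_appLE]
    exact congrArg (f.app V ≫ ·) (fromSpecStalk_appLE _ _ hx a1)
  have h3b : (Spec.map Ψ ≫ Y.fromSpecStalk (genericPoint Y)).appLE V ⊤ e2 =
      Y.presheaf.germ V (genericPoint Y) hy ≫
        (Scheme.ΓSpecIso (Y.presheaf.stalk (genericPoint Y))).inv ≫ (Spec.map Ψ).appTop := by
    have h4 : (Spec.map Ψ ≫ Y.fromSpecStalk (genericPoint Y)).appLE V ⊤ e2 =
        (Y.fromSpecStalk (genericPoint Y)).appLE V ⊤ a2 ≫ (Spec.map Ψ).appTop := by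
      have h9 : (Spec.map Ψ).appTop = (Spec.map Ψ).appLE ⊤ ⊤ le_rfl :=
        Scheme.Hom.app_eq_appLE _
      rw [h9]
      exact (Scheme.Hom.appLE_comp_appLE (Spec.map Ψ) (Y.fromSpecStalk (genericPoint Y))
        V ⊤ ⊤ a2 le_rfl).symm
    rw [h4, fromSpecStalk_appLE _ _ hy, Category.assoc]
  have h5 : (Spec.map Ψ).appTop ≫ (Scheme.ΓSpecIso X.functionField).hom =
      (Scheme.ΓSpecIso Y.functionField).hom ≫ Ψ := Scheme.ΓSpecIso_naturality Ψ
  rw [h3a, h3b] at h3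
  have h6 : f.app V ≫ X.presheaf.germ (f ⁻¹ᵁ V) (genericPoint X) hx =
      Y.presheaf.germ V (genericPoint Y) hy ≫ Ψ := by
    have h7 := congrArg (fun k => k ≫ (Scheme.ΓSpecIso X.functionField).hom) h3
    simp only [Category.assoc] at h7
    erw [Iso.inv_hom_id, h5, Iso.inv_hom_id_assoc, Category.comp_id] at h7
    exact h7
  have h8 := congrArg (fun k => k.hom t) h6
  simpa using h8

/-- the local morphism -/
noncomputable def loc {X Y : Scheme.{0}} (U : X.Opens) (V : Y.Opens) (hV : IsAffineOpen V)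
    (ψ : Γ(Y, V) ⟶ Γ(X, U)) : (U : Scheme.{0}) ⟶ Y :=
  U.toSpecΓ ≫ Spec.map ψ ≫ hV.fromSpec

lemma loc_mem {X Y : Scheme.{0}} (U : X.Opens) (V : Y.Opens) (hV : IsAffineOpen V)
    (ψ : Γ(Y, V) ⟶ Γ(X, U)) (x : U) : loc U V hV ψ x ∈ V := by
  have h : loc U V hV ψ x ∈ Set.range hV.fromSpec :=
    ⟨(U.toSpecΓ ≫ Spec.map ψ) x, by rw [loc]; simp⟩
  rw [IsAffineOpen.range_fromSpec] at h
  exact h

lemma loc_gen {X Y : Scheme.{0}} [IsIntegral X] [IsIntegral Y] (U : X.Opens) [Nonempty U]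
    (V : Y.Opens) [Nonempty V] (hV : IsAffineOpen V) (ψ : Γ(Y, V) ⟶ Γ(X, U))
    (Ψ : Y.functionField ⟶ X.functionField)
    (h : ψ ≫ X.germToFunctionField U = Y.germToFunctionField V ≫ Ψ) :
    U.fromSpecStalkOfMem (genericPoint X) (gen_mem U) ≫ loc U V hV ψ =
      Spec.map Ψ ≫ Y.fromSpecStalk (genericPoint Y) := by
  rw [loc, Scheme.Opens.fromSpecStalkOfMem_toSpecΓ_assoc, ← Spec.map_comp_assoc]
  have h2 : ψ ≫ X.presheaf.germ U (genericPoint X) (gen_mem U) =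
    Y.presheaf.germ V (genericPoint Y) (gen_mem V) ≫ Ψ := h
  rw [h2, Spec.map_comp_assoc]
  congr 1
  exact hV.fromSpecStalk_eq_fromSpecStalk (gen_mem V)

theorem glue {X Y : Scheme.{0}} [IsIntegral X] [IsIntegral Y] [Y.IsSeparated] {C : Type}
    (U : C → X.Opens) [∀ c, Nonempty (U c)] (V : C → Y.Opens) [∀ c, Nonempty (V c)]
    (hV : ∀ c, IsAffineOpen (V c)) (cov : ∀ x : X, ∃ c, x ∈ U c)
    (ψ : ∀ c, Γ(Y, V c) ⟶ Γ(X, U c)) (Ψ : Y.functionField ⟶ X.functionField)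
    (h : ∀ c, ψ c ≫ X.germToFunctionField (U c) = Y.germToFunctionField (V c) ≫ Ψ) :
    ∃ f : X ⟶ Y, (∀ (c : C) (x : X), x ∈ U c → f x ∈ V c) ∧
      X.fromSpecStalk (genericPoint X) ≫ f = Spec.map Ψ ≫ Y.fromSpecStalk (genericPoint Y) := by
  let P : C → X.PartialMap Y := fun c =>
    { domain := U c
      dense_domain := (U c).2.dense ⟨_, gen_mem (U c)⟩
      hom := loc (U c) (V c) (hV c) (ψ c) }
  obtain ⟨c0, hc0⟩ := cov (genericPoint X)
  have hP : ∀ c, (P c).toRationalMap = (P c0).toRationalMap := by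
    intro c
    rw [Scheme.PartialMap.toRationalMap_eq_iff]
    refine Scheme.PartialMap.equiv_of_fromSpecStalkOfMem_eq (x := genericPoint X) _ _
      (gen_mem (U c)) (gen_mem (U c0)) ?_
    exact (loc_gen (U c) (V c) (hV c) (ψ c) Ψ (h c)).trans
      (loc_gen (U c0) (V c0) (hV c0) (ψ c0) Ψ (h c0)).symm
  set r := (P c0).toRationalMap with hr
  have hdom : ∀ c, U c ≤ r.toPartialMap.domain := by
    intro c
    have := (P c).le_domain_toRationalMap
    rw [hP c] at this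
    exact this
  have htop : (⊤ : X.Opens) ≤ r.toPartialMap.domain := by
    intro x _
    obtain ⟨c, hc⟩ := cov x
    exact hdom c hc
  have hres : ∀ c, X.homOfLE (hdom c) ≫ r.toPartialMap.hom = loc (U c) (V c) (hV c) (ψ c) := by
    intro c
    have gen : ∀ (r' : Scheme.RationalMap X Y) (hr' : (P c).toRationalMap = r')
        (hd : (P c).domain ≤ r'.toPartialMap.domain),
        X.homOfLE hd ≫ r'.toPartialMap.hom = (P c).hom := by
      rintro _ rfl hd
      exact (P c).toPartialMap_toRationalMap_restrict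
    exact gen r (hP c) (hdom c)
  have hf : ∀ c, (U c).ι ≫ (X.topIso.inv ≫ X.homOfLE htop ≫ r.toPartialMap.hom) =
      loc (U c) (V c) (hV c) (ψ c) := by
    intro c
    rw [← hres c]
    have h1 : (U c).ι ≫ X.topIso.inv = X.homOfLE le_top := by
      rw [← cancel_mono (Scheme.Opens.ι ⊤)]
      simp
    rw [reassoc_of% h1, Scheme.homOfLE_homOfLE_assoc]
  refine ⟨X.topIso.inv ≫ X.homOfLE htop ≫ r.toPartialMap.hom, ?_, ?_⟩
  · intro c x hx
    have h1 : (X.topIso.inv ≫ X.homOfLE htop ≫ r.toPartialMap.hom) x =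
        ((U c).ι ≫ (X.topIso.inv ≫ X.homOfLE htop ≫ r.toPartialMap.hom)) ⟨x, hx⟩ := rfl
    rw [h1, hf c]
    exact loc_mem _ _ _ _ _
  · rw [← Scheme.Opens.fromSpecStalkOfMem_ι (U c0) (genericPoint X) (gen_mem (U c0)),
      Category.assoc, hf c0]
    exact loc_gen (U c0) (V c0) (hV c0) (ψ c0) Ψ (h c0)

lemma ffHom_eq {X : Scheme.{0}} [IsIntegral X] (s : X ⟶ Spec (.of ℂ)) (z : ℂ) :
    ffHom s z = X.presheaf.germ ⊤ (genericPoint X) trivial
      (s.appTop ((Scheme.ΓSpecIso (.of ℂ)).inv z)) := by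
  have h : X.presheaf.map (homOfLE (le_top : (⊤ : X.Opens) ≤ ⊤)).op = 𝟙 _ :=
    X.presheaf.map_id _
  simp only [ffHom, secHom, h]
  rfl

end MORG

theorem morg : S_MORG := by
  intro R ι C r _ _ _ _ R' ι' C' r' _ _ _ _ D D' M M' Φ τ hC hΦ
  have : IsSeparated M'.str := inferInstance
  have : M'.X.IsSeparated := by
    constructor
    have : Limits.terminal.from M'.X = M'.str ≫ Limits.terminal.from _ :=
      Limits.terminal.hom_ext _ _
    rw [this]
    infer_instance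
  -- restriction of Φ
  let Φc : ∀ c, D'.chart (τ c) →+* D.chart c := fun c =>
    ((Φ.comp (D'.chart (τ c)).val.toRingHom).codRestrict (D.chart c) (fun x => hΦ c _ x.2))
  have hΦc : ∀ c (a : D'.chart (τ c)), ((Φc c a : D.chart c) : FractionRing R) = Φ a :=
    fun c a => rfl
  let ψ : ∀ c, Γ(M'.X, M'.U (τ c)) ⟶ Γ(M.X, M.U c) := fun c =>
    CommRingCat.ofHom (((M.iso c).symm.toRingHom.comp (Φc c)).comp (M'.iso (τ c)).toRingHom)
  have hψ : ∀ c (s : Γ(M'.X, M'.U (τ c))), M.emb (M.X.germToFunctionField (M.U c) (ψ c s)) =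
      Φ (M'.emb (M'.X.germToFunctionField (M'.U (τ c)) s)) := by
    intro c s
    rw [← M.iso_emb, ← M'.iso_emb]
    have : M.iso c (ψ c s) = Φc c (M'.iso (τ c) s) := by
      simp [ψ]
    rw [this, hΦc]
  obtain ⟨c0, hc0⟩ := M.cov (genericPoint M.X)
  -- the extension to the function fields
  have : IsFractionRing Γ(M'.X, M'.U (τ c0)) M'.X.functionField :=
    functionField_isFractionRing_of_isAffineOpen M'.X _ (M'.aff (τ c0))
  let κ : Γ(M'.X, M'.U (τ c0)) →+* M.X.functionField :=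
    (M.X.germToFunctionField (M.U c0)).hom.comp (ψ c0).hom
  have hκ : Function.Injective κ := by
    have h1 : Function.Injective (fun s => M.emb (κ s)) := by
      intro s t hst
      have h2 : Φ (M'.emb (M'.X.germToFunctionField (M'.U (τ c0)) s)) =
          Φ (M'.emb (M'.X.germToFunctionField (M'.U (τ c0)) t)) := by
        rw [← hψ, ← hψ]
        exact hst
      exact Scheme.germToFunctionField_injective _ _ (M'.emb.injective (Φ.injective h2))
    exact fun s t hst => h1 (by simp only [hst])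
  let Ψ0 : M'.X.functionField →+* M.X.functionField := IsFractionRing.lift hκ
  have hΨ0 : ∀ a, M.emb (Ψ0 a) = Φ (M'.emb a) := by
    intro a
    have h1 : M.emb.comp Ψ0 = Φ.comp M'.emb := by
      refine IsLocalization.ringHom_ext (nonZeroDivisors Γ(M'.X, M'.U (τ c0))) ?_
      ext s
      have h2 : Ψ0 (algebraMap _ _ s) = κ s := IsFractionRing.lift_algebraMap hκ s
      change M.emb (Ψ0 (algebraMap _ _ s)) = Φ (M'.emb (M'.X.germToFunctionField _ s))
      rw [h2, ← hψ]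
      rfl
    exact congrArg (fun k => k a) h1
  obtain ⟨f, hf1, hf2⟩ := MORG.glue M.U (fun c => M'.U (τ c)) (fun c => M'.aff (τ c)) M.cov ψ
    (CommRingCat.ofHom Ψ0) (by
      intro c
      ext s
      apply M.emb.injective
      change M.emb (M.X.germToFunctionField (M.U c) (ψ c s)) = M.emb (Ψ0 _)
      rw [hψ, hΨ0]
      rfl)
  have hsec : ∀ (V : M'.X.Opens) [Nonempty V] [Nonempty (f ⁻¹ᵁ V)] (t : Γ(M'.X, V)),
      M.emb (M.X.germToFunctionField (f ⁻¹ᵁ V) (f.app V t)) =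
        Φ (M'.emb (M'.X.germToFunctionField V t)) := by
    intro V _ _ t
    rw [MORG.sections_of_generic f (CommRingCat.ofHom Ψ0) hf2 V t, ← hΨ0]
    rfl
  refine ⟨f, ?_, hf1, ?_⟩
  · apply ext_of_isAffine
    ext t
    obtain ⟨z, rfl⟩ : ∃ z : ℂ, (Scheme.ΓSpecIso (.of ℂ)).inv z = t :=
      ⟨(Scheme.ΓSpecIso (.of ℂ)).hom t, by
        rw [← CategoryTheory.comp_apply]
        simp⟩
    have h0 : Function.Injective (fun a => M.emb (M.X.presheaf.germ ⊤ (genericPoint M.X)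
        trivial a)) := fun a b hab =>
      germ_injective_of_isIntegral M.X (genericPoint M.X) (U := ⊤) trivial (M.emb.injective hab)
    apply h0
    have : Nonempty (⊤ : M'.X.Opens) := ⟨⟨genericPoint M'.X, trivial⟩⟩
    have : Nonempty (f ⁻¹ᵁ (⊤ : M'.X.Opens)) := ⟨⟨genericPoint M.X, trivial⟩⟩
    have h1 := hsec ⊤ (M'.str.appTop ((Scheme.ΓSpecIso (.of ℂ)).inv z))
    have h2 : Φ (M'.emb (M'.X.germToFunctionField ⊤
        (M'.str.appTop ((Scheme.ΓSpecIso (.of ℂ)).inv z)))) = algebraMap ℂ _ z := by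
      have h3 := MORG.ffHom_eq M'.str z
      have h4 := M'.emb_C z
      rw [h3] at h4
      exact (congrArg Φ h4).trans (hC z)
    have h5 : M.emb (M.X.presheaf.germ ⊤ (genericPoint M.X) trivial
        (M.str.appTop ((Scheme.ΓSpecIso (.of ℂ)).inv z))) = algebraMap ℂ _ z := by
      have h3 := MORG.ffHom_eq M.str z
      have h4 := M.emb_C z
      rw [h3] at h4
      exact h4
    refine Eq.trans ?_ ((h1.trans h2).trans h5.symm)
    simp only [Scheme.Hom.comp_appTop]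
    rfl
  · intro x s
    obtain ⟨V, hV, t, rfl⟩ := M'.X.presheaf.exists_germ_eq s
    have : Nonempty V := ⟨⟨_, hV⟩⟩
    have : Nonempty (f ⁻¹ᵁ V) := ⟨⟨x, hV⟩⟩
    have h1 : (f.stalkMap x).hom (M'.X.presheaf.germ V (f x) hV t) =
        M.X.presheaf.germ (f ⁻¹ᵁ V) x hV (f.app V t) := Scheme.Hom.germ_stalkMap_apply f V x hV t
    have h2 := Scheme.algebraMap_germ_eq_germToFunctionField (X := M.X) (U := f ⁻¹ᵁ V) (x := x)
      hV (f.app V t)
    have h3 := Scheme.algebraMap_germ_eq_germToFunctionField (X := M'.X) (U := V) (x := f x)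
      hV t
    rw [h1]
    exact ((congrArg M.emb h2).trans (hsec V t)).trans (congrArg (fun k => Φ (M'.emb k)) h3.symm)

end FCB
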